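import Pool.Agent.Lib.MP_5049a2_lc.H7Gap3

/-!
Maximin share approximation for additive valuations: for every `n ≥ 12` there is an instance with
`n` agents in which every allocation leaves some agent below `1 - 1 / (22000 log n)` times her
maximin share.
-/

namespace Pool.Agent.Results.MP_5049a2_lc.LogGap

open Finset

/-- The value, under the additive valuation `v`, of bundle `j` of the partition `P` of the goods
`Fin m` into `n` (possibly empty) bundles; good `g` lies in bundle `P g`. -/
def bundleValue {n m : ℕ} (v : Fin m → ℝ) (P : Fin m → Fin n) (j : Fin n) : ℝ :=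
  ∑ g ∈ univ.filter (fun g => P g = j), v g

/-- The maximin share: max over partitions into `n` bundles of the least bundle value. -/
noncomputable def mms (n : ℕ) {m : ℕ} (v : Fin m → ℝ) : ℝ :=
  ⨆ P : Fin m → Fin n, ⨅ j : Fin n, bundleValue v P j

theorem result (n : ℕ) (hn : 12 ≤ n) :
    ∃ (m : ℕ) (v : Fin n → Fin m → ℝ), (∀ i g, 0 ≤ v i g) ∧
      ∀ A : Fin m → Fin n, ∃ i,
        bundleValue (v i) A i < (1 - 1 / (22000 * Real.log n)) * mms n (v i) := by
  obtain ⟨e, m, v, he, hpow, hv, hP, hA⟩ := Pool.Agent.Lib.MP_5049a2_lc.H7.instance_int n hn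
  have : Nonempty (Fin n) := ⟨⟨0, by omega⟩⟩
  refine ⟨m, fun i g => (v i g : ℝ), fun i g => by
    beta_reduce; exact_mod_cast hv i g, fun A => ?_⟩
  obtain ⟨i, hi⟩ := hA A
  refine ⟨i, ?_⟩
  obtain ⟨P, hPi⟩ := hP i
  have hm : (15015 * e : ℝ) ≤ mms n fun g => (v i g : ℝ) := by
    refine le_ciSup_of_le (Set.finite_range _).bddAbove P (le_ciInf fun j => ?_)
    have := hPi j
    unfold bundleValue
    beta_reduce
    exact_mod_cast this.ge
  have hb : bundleValue (fun g => (v i g : ℝ)) A i ≤ 15015 * e - 1 := by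
    unfold bundleValue
    have : ∑ g ∈ univ.filter (fun g => A g = i), v i g ≤ 15015 * e - 1 := by omega
    beta_reduce
    exact_mod_cast this
  have he' : (1 : ℝ) ≤ e := by exact_mod_cast he
  have hlog : (e : ℝ) * Real.log 2 ≤ Real.log n := by
    rw [← Real.log_pow]
    exact Real.log_le_log (by positivity) (by exact_mod_cast hpow)
  have h2 := Real.log_two_gt_d9
  have hL : (15015 * e : ℝ) < 22000 * Real.log n := by nlinarith
  have hL0 : (0 : ℝ) < 22000 * Real.log n := by nlinarith
  have h3 : 1 / (22000 * Real.log n) * (15015 * e) < 1 := by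
    rw [one_div_mul_eq_div, div_lt_one hL0]; exact hL
  have h4 : 0 ≤ 1 - 1 / (22000 * Real.log n) := by
    rw [sub_nonneg, div_le_one hL0]; nlinarith
  calc _ ≤ (15015 * e - 1 : ℝ) := hb
    _ < (1 - 1 / (22000 * Real.log n)) * (15015 * e) := by linarith
    _ ≤ _ := mul_le_mul_of_nonneg_left hm h4

end Pool.Agent.Results.MP_5049a2_lc.LogGap
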