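import Pool.Agent.FS.OrdinalShare.Core

/-!
Ordinal maximin share approximation for additive valuations: with `n ≤ 2 ^ k` agents there is
always an allocation that gives every agent her full 1-out-of-`d` maximin share as soon as
`d ≥ n + 12 √(n (k + 2) ^ 3) + 32 (k + 2) ^ 3`.
-/

namespace Pool.Agent.Results.MP_5049a2_lc.OrdinalShare

open Finset

/-- The value, under the additive valuation `v`, of bundle `j` of the partition `P` of the goods
`Fin m` into `n` (possibly empty) bundles; good `g` lies in bundle `P g`. -/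
def bundleValue {n m : ℕ} (v : Fin m → ℝ) (P : Fin m → Fin n) (j : Fin n) : ℝ :=
  ∑ g ∈ univ.filter (fun g => P g = j), v g

/-- The 1-out-of-`d` maximin share: max over partitions into `d` bundles of the least bundle
value. -/
noncomputable def mms (d : ℕ) {m : ℕ} (v : Fin m → ℝ) : ℝ :=
  ⨆ P : Fin m → Fin d, ⨅ j : Fin d, bundleValue v P j

theorem result (n k d : ℕ) (hn : 1 ≤ n) (hk : n ≤ 2 ^ k)
    (hd : (n : ℝ) + 12 * √(n * ((k : ℝ) + 2) ^ 3) + 32 * ((k : ℝ) + 2) ^ 3 ≤ d)
    (m : ℕ) (v : Fin n → Fin m → ℝ) (hv : ∀ i g, 0 ≤ v i g) :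
    ∃ A : Fin m → Fin n, ∀ i, mms d (v i) ≤ bundleValue (v i) A i := by
  classical
  have hn' : (1 : ℝ) ≤ n := by exact_mod_cast hn
  have hk0 : (0 : ℝ) ≤ k := Nat.cast_nonneg k
  have hc : (1 : ℝ) ≤ ((k : ℝ) + 2) ^ 3 := one_le_pow₀ (by linarith)
  set y := √(n * ((k : ℝ) + 2) ^ 3) with hy
  have hy1 : 1 ≤ y := Real.one_le_sqrt.2 (by nlinarith)
  have hy2 : y * y = n * ((k : ℝ) + 2) ^ 3 := Real.mul_self_sqrt (by positivity)
  have hd0 : 0 < d := by
    have : (0 : ℝ) < d := by linarith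
    exact_mod_cast this
  have : Nonempty (Fin d) := ⟨⟨0, hd0⟩⟩
  have hP := fun i => exists_eq_ciSup_of_finite
    (f := fun P : Fin m → Fin d => ⨅ j : Fin d, bundleValue (v i) P j)
  choose P hP using hP
  have hmm : ∀ i j, mms d (v i) ≤ bundleValue (v i) (P i) j := by
    intro i j
    unfold mms
    rw [← hP i]
    exact ciInf_le (Set.finite_range _).bddBelow j
  let σ : Fin n → Equiv.Perm (Fin m) := fun i => Tuple.sort fun g => -v i g
  have hσ : ∀ i, Antitone fun p => v i (σ i p) := fun i p q hpq =>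
    neg_le_neg_iff.1 (Tuple.monotone_sort (fun g => -v i g) hpq)
  let w : Fin n → ℕ → ℝ := fun i p => if h : p < m then v i (σ i ⟨p, h⟩) else 0
  let bun : Fin n → ℕ → Fin d := fun i p => if h : p < m then P i (σ i ⟨p, h⟩) else ⟨0, hd0⟩
  have hw0 : ∀ i p, 0 ≤ w i p := fun i p => by
    simp only [w]; split_ifs; exacts [hv _ _, le_rfl]
  have hw : ∀ i, Antitone (w i) := by
    intro i p q hpq
    by_cases hq : q < m
    · have hp : p < m := hpq.trans_lt hq
      simp only [w, dif_pos hp, dif_pos hq]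
      exact hσ i (show (⟨p, hp⟩ : Fin m) ≤ ⟨q, hq⟩ from hpq)
    · have := hw0 i p
      simpa only [w, dif_neg hq] using this
  have hsum : ∀ i (S : Finset ℕ), ∑ p ∈ S, w i p =
      ∑ p ∈ univ.filter (fun p : Fin m => p.val ∈ S), v i (σ i p) := by
    intro i S
    rw [← sum_filter_add_sum_filter_not S (· < m),
      sum_eq_zero (s := S.filter fun p => ¬ p < m)
        (fun p hp => by simp only [w, dif_neg (mem_filter.1 hp).2]), add_zero]
    symm
    refine sum_bij (fun p _ => p.val) (fun p hp => mem_filter.2 ⟨(mem_filter.1 hp).2, p.2⟩)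
      (fun p _ q _ h => Fin.ext h)
      (fun q hq => ⟨⟨q, (mem_filter.1 hq).2⟩, mem_filter.2 ⟨mem_univ _, (mem_filter.1 hq).1⟩, rfl⟩)
      fun p _ => by simp only [w, dif_pos p.2]
  have hk' : (n : ℝ) ≤ 2 ^ k := by exact_mod_cast hk
  obtain ⟨c, T, hT1, hT2⟩ := Pool.Agent.FS.OrdinalShare.core (d := d) (2 * k + 2) m
    w hw hw0 bun (n + 6 * y) (3 * y / (n + 6 * y)) (by positivity) (by positivity)
    (by
      push_cast
      have h1 : (2 * (k : ℝ) + 2 + 1) ^ 3 + 1 ≤ 8 * ((k : ℝ) + 2) ^ 3 := by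
        nlinarith [mul_nonneg hk0 hk0]
      have h2 : ((2 * (k : ℝ) + 2 + 1) ^ 3 + 1) / (3 * y / (n + 6 * y)) ≤
          3 * y + 16 * ((k : ℝ) + 2) ^ 3 := by
        rw [div_div_eq_mul_div, div_le_iff₀ (by positivity)]
        have := mul_le_mul_of_nonneg_right h1 (show (0 : ℝ) ≤ n + 6 * y by positivity)
        nlinarith
      linarith)
    (by
      have h1 : (n : ℝ) / 2 ^ (2 * k + 2) ≤ 3 * y / (n + 6 * y) := by
        rw [div_le_div_iff₀ (by positivity) (by positivity)]
        have h2 : (n : ℝ) * n ≤ 2 ^ k * 2 ^ k := mul_self_le_mul_self (by linarith) hk'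
        have h3 : (2 : ℝ) ^ (2 * k + 2) = 4 * (2 ^ k * 2 ^ k) := by ring
        have h4 := mul_le_mul_of_nonneg_left h2 (show (0 : ℝ) ≤ y by linarith)
        have h5 : (n : ℝ) * n * 1 ≤ n * n * y := mul_le_mul_of_nonneg_left hy1 (by positivity)
        have h6 : (n : ℝ) * y * 1 ≤ n * y * n := mul_le_mul_of_nonneg_left hn' (by positivity)
        rw [h3]
        nlinarith
      have h7 : (n : ℝ) / (n + 6 * y) + 3 * y / (n + 6 * y) + 3 * y / (n + 6 * y) = 1 := by
        field_simp; ring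
      linarith)
  obtain ⟨A, hA⟩ := Pool.Agent.FS.OrdinalShare.hall hn v hv σ hσ T hT1
  refine ⟨A, fun i => (hmm i (c i)).trans (le_trans ?_ (((hsum i _).symm.le.trans (hT2 i)).trans
    ((hsum i _).le.trans (hA i))))⟩
  refine le_of_eq ?_
  unfold bundleValue
  symm
  refine sum_equiv (σ i) (fun p => ?_) fun p _ => rfl
  have : p.val < 2 ^ (2 * k + 2) + m := p.2.trans_le (Nat.le_add_left _ _)
  simp only [mem_filter, mem_univ, true_and, mem_range, this, bun, dif_pos p.2]

end Pool.Agent.Results.MP_5049a2_lc.OrdinalShare
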