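import Pool.Agent.Lib.MP_5049a2_lc.RatA
import Pool.Agent.Results.MP_5049a2_lc.TightRate
import Pool.Agent.Results.MP_5049a2_lc.LogGap

/-!
Maximin share approximation for additive valuations: the optimal ratio over all numbers of agents
is a rational number, attained by an instance with `n ≤ exp (exp 40)` agents and `n ^ n` goods.
-/

namespace Pool.Agent.Results.MP_5049a2_lc.RationalMin

open Finset

/-- The value, under the additive valuation `v`, of bundle `j` of the partition `P` of the goods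
`Fin m` into `n` (possibly empty) bundles; good `g` lies in bundle `P g`. -/
def bundleValue {n m : ℕ} (v : Fin m → ℝ) (P : Fin m → Fin n) (j : Fin n) : ℝ :=
  ∑ g ∈ univ.filter (fun g => P g = j), v g

/-- The maximin share: max over partitions into `n` bundles of the least bundle value. -/
noncomputable def mms (n : ℕ) {m : ℕ} (v : Fin m → ℝ) : ℝ :=
  ⨆ P : Fin m → Fin n, ⨅ j : Fin n, bundleValue v P j

/-- Every additive instance with `n` agents admits an `α`-MMS allocation. -/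
def Guarantee (n : ℕ) (α : ℝ) : Prop :=
  ∀ (m : ℕ) (v : Fin n → Fin m → ℝ), (∀ i g, 0 ≤ v i g) →
    ∃ A : Fin m → Fin n, ∀ i, α * mms n (v i) ≤ bundleValue (v i) A i

/-- There is an instance with `n` agents, `n ^ n` goods, rational values and positive maximin
shares in which every allocation gives some agent at most `α` times her share. -/
def Tight (n : ℕ) (α : ℝ) : Prop :=
  ∃ w : Fin n → Fin (n ^ n) → ℚ, (∀ i g, 0 ≤ w i g) ∧ (∀ i, 0 < mms n fun g => (w i g : ℝ)) ∧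
    ∀ A : Fin (n ^ n) → Fin n, ∃ i,
      bundleValue (fun g => (w i g : ℝ)) A i ≤ α * mms n fun g => (w i g : ℝ)

theorem le_mms {n m : ℕ} (hn : 0 < n) {v : Fin m → ℝ} {x : ℝ} (P : Fin m → Fin n)
    (h : ∀ j, x ≤ bundleValue v P j) : x ≤ mms n v := by
  have : Nonempty (Fin n) := ⟨⟨0, hn⟩⟩
  exact le_ciSup_of_le (Set.finite_range _).bddAbove P (le_ciInf h)

theorem exists_part {n m : ℕ} (hn : 0 < n) (v : Fin m → ℝ) :
    ∃ P : Fin m → Fin n, ∀ j, mms n v ≤ bundleValue v P j := by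
  have : Nonempty (Fin n) := ⟨⟨0, hn⟩⟩
  obtain ⟨P, hP⟩ := exists_eq_ciSup_of_finite
    (f := fun P : Fin m → Fin n => ⨅ j : Fin n, bundleValue v P j)
  refine ⟨P, fun j => ?_⟩
  unfold mms
  rw [← hP]
  exact ciInf_le (Set.finite_range _).bddBelow j

theorem fixed (n : ℕ) (hn : 0 < n) :
    ∃ q : ℚ, 0 < q ∧ q ≤ 1 ∧ Guarantee n q ∧ Tight n q := by
  have : Nonempty (Fin n) := ⟨⟨0, hn⟩⟩
  let e : Fin (n ^ n) ≃ (Fin n → Fin n) := finFunctionFinEquiv.symm
  obtain ⟨w, q, hf, hmin⟩ := Pool.Agent.Lib.MP_5049a2_lc.RatA.exists_min_rat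
    (fun i g => e g i) fun i j => ⟨e.symm fun _ => j, by simp⟩
  have hw : ∀ i g, (0 : ℝ) ≤ w i g := fun i g => (hf.1 i g).1
  have hG : Guarantee n q := by
    intro m v hv
    choose Q hQ using fun i => exists_part hn (v i)
    exact Pool.Agent.Lib.MP_5049a2_lc.RatA.guarantee e hmin v hv (fun i => mms n (v i))
      (fun i => le_mms hn (Q i) fun j => sum_nonneg fun g _ => hv i g) Q hQ
  have hq : (0 : ℝ) < q := by
    have h1 : ∀ i j, ∃ g, e g i = j ∧ (0 : ℝ) < w i g := by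
      intro i j
      by_contra hc
      have h2 : ∑ g ∈ univ.filter (fun g => e g i = j), (w i g : ℝ) ≤ 0 :=
        sum_nonpos fun g hg => not_lt.1 fun h => hc ⟨g, (mem_filter.1 hg).2, h⟩
      exact absurd ((hf.2.1 i j).trans h2) (by norm_num)
    choose f hf1 hf2 using h1
    have h3 : ∀ i, n ≤ (univ.image (f i)).card := by
      intro i
      rw [card_image_of_injective _ fun j j' h => by rw [← hf1 i j, ← hf1 i j', h]]
      simp
    obtain ⟨u, hu, hu'⟩ := (all_card_le_biUnion_card_iff_exists_injective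
      fun i => univ.image (f i)).1 fun s => by
        rcases s.eq_empty_or_nonempty with rfl | ⟨i, hi⟩
        · simp
        · exact (card_le_univ s).trans ((Fintype.card_fin n).le.trans ((h3 i).trans
            (card_le_card (subset_biUnion_of_mem (fun i => univ.image (f i)) hi))))
    obtain ⟨i, hi⟩ := hf.2.2 (Function.invFun u)
    obtain ⟨j, -, hj⟩ := mem_image.1 (hu' i)
    refine lt_of_lt_of_le ?_ hi
    refine lt_of_lt_of_le (hf2 i j) (single_le_sum (f := fun g => (w i g : ℝ))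
      (fun g _ => hw i g) (mem_filter.2 ⟨mem_univ _, ?_⟩))
    rw [hj]
    exact Function.leftInverse_invFun hu i
  have hm : ∀ i, 1 ≤ mms n fun g => (w i g : ℝ) := fun i =>
    le_mms hn (fun g => e g i) (hf.2.1 i)
  refine ⟨q, by exact_mod_cast hq, ?_, hG, w, fun i g => by exact_mod_cast hw i g,
    fun i => one_pos.trans_le (hm i), fun A => ?_⟩
  · obtain ⟨A, hA⟩ := hG n (fun _ _ => 1) fun _ _ => zero_le_one
    have h1 : (1 : ℝ) ≤ mms n fun _ : Fin n => (1 : ℝ) := le_mms hn id fun j =>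
      single_le_sum (f := fun _ : Fin n => (1 : ℝ)) (fun _ _ => zero_le_one)
        (mem_filter.2 ⟨mem_univ j, rfl⟩)
    have h2 : ∑ _i : Fin n, (q : ℝ) ≤ ∑ i, bundleValue (fun _ : Fin n => (1 : ℝ)) A i :=
      sum_le_sum fun i _ => (le_mul_of_one_le_right hq.le h1).trans (hA i)
    have h3 : ∑ i, bundleValue (fun _ : Fin n => (1 : ℝ)) A i = ∑ _g : Fin n, (1 : ℝ) :=
      sum_fiberwise univ A fun _ => (1 : ℝ)
    rw [h3] at h2
    simp only [sum_const, card_univ, Fintype.card_fin, nsmul_eq_mul] at h2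
    have h4 : (q : ℝ) ≤ 1 := le_of_mul_le_mul_left h2 (by exact_mod_cast hn)
    exact_mod_cast h4
  · obtain ⟨i, hi⟩ := hf.2.2 A
    exact ⟨i, le_trans hi (le_mul_of_one_le_right hq.le (hm i))⟩

theorem num {x : ℝ} (hx : Real.exp 40 ≤ x) :
    2000000 * Real.log x ^ 2 / x ≤ 1 / (22000 * Real.log 12) := by
  have hx0 : 0 < x := (Real.exp_pos _).trans_le hx
  have hy : 40 ≤ Real.log x := (Real.le_log_iff_exp_le hx0).2 hx
  have h1 : 0 < Real.log 12 := Real.log_pos (by norm_num)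
  have h2 : Real.log 12 ≤ 4 := by
    have h3 : Real.log 12 ≤ Real.log (2 ^ 4) := Real.log_le_log (by norm_num) (by norm_num)
    rw [Real.log_pow] at h3
    have := Real.log_two_lt_d9
    push_cast at h3
    linarith
  have h3 := Real.pow_div_factorial_le_exp (Real.log x) (by linarith) 24
  rw [Real.exp_log hx0, div_le_iff₀ (by positivity)] at h3
  have h4 : (40 : ℝ) ^ 22 ≤ Real.log x ^ 22 := pow_le_pow_left₀ (by norm_num) hy 22
  have h5 : Real.log x ^ 24 = Real.log x ^ 22 * Real.log x ^ 2 := by ring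
  have h6 : 0 ≤ Real.log x ^ 2 := by positivity
  have h7 : (40 : ℝ) ^ 22 * Real.log x ^ 2 ≤ x * (Nat.factorial 24 : ℕ) :=
    (mul_le_mul_of_nonneg_right h4 h6).trans (h5 ▸ h3)
  rw [div_le_div_iff₀ hx0 (by positivity), one_mul]
  have h8 : 2000000 * Real.log x ^ 2 * (22000 * Real.log 12) ≤
      2000000 * Real.log x ^ 2 * (22000 * 4) := by gcongr
  norm_num [Nat.factorial] at h7
  linarith

theorem all_ratios : ∃ a : ℕ → ℚ,
    (∀ n, 2 ≤ n → 0 < a n ∧ a n ≤ 1 ∧ Guarantee n (a n) ∧ Tight n (a n)) ∧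
      ∃ n₀ : ℕ, 2 ≤ n₀ ∧ (n₀ : ℝ) ≤ Real.exp (Real.exp 40) ∧ a n₀ < 1 ∧
        ∀ n, 2 ≤ n → a n₀ ≤ a n := by
  have hch : ∀ n, ∃ q : ℚ, 2 ≤ n → 0 < q ∧ q ≤ 1 ∧ Guarantee n q ∧ Tight n q := by
    intro n
    by_cases hn : 2 ≤ n
    · obtain ⟨q, hq⟩ := fixed n (by omega)
      exact ⟨q, fun _ => hq⟩
    · exact ⟨0, fun h => absurd h hn⟩
  choose a ha using hch
  have hl : 0 < Real.log 12 := Real.log_pos (by norm_num)
  have h12 : (a 12 : ℝ) < 1 - 1 / (22000 * Real.log 12) := by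
    obtain ⟨m, v, hv, hA⟩ := LogGap.result 12 le_rfl
    obtain ⟨A, hA'⟩ := (ha 12 (by norm_num)).2.2.1 m v hv
    obtain ⟨i, hi⟩ := hA A
    have h0 : 0 ≤ mms 12 (v i) :=
      le_mms (by norm_num) A fun j => sum_nonneg fun g _ => hv i g
    have h1 : (a 12 : ℝ) * mms 12 (v i) < (1 - 1 / (22000 * Real.log (12 : ℕ))) * mms 12 (v i) :=
      lt_of_le_of_lt (hA' i) hi
    exact_mod_cast lt_of_mul_lt_mul_right h1 h0
  have he : (41 : ℝ) ≤ Real.exp 40 := by linarith [Real.add_one_le_exp (40 : ℝ)]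
  have hE : (42 : ℝ) ≤ Real.exp (Real.exp 40) := by linarith [Real.add_one_le_exp (Real.exp 40)]
  have hm12 : 12 ∈ Icc 2 ⌊Real.exp (Real.exp 40)⌋₊ :=
    mem_Icc.2 ⟨by norm_num, Nat.le_floor (by push_cast; linarith)⟩
  obtain ⟨n₀, h0, hmin⟩ := exists_min_image (Icc 2 ⌊Real.exp (Real.exp 40)⌋₊) a ⟨12, hm12⟩
  have h1 : (a n₀ : ℝ) ≤ a 12 := by exact_mod_cast hmin 12 hm12
  have h2 : 0 < 1 / (22000 * Real.log 12) := by positivity
  refine ⟨a, ha, n₀, (mem_Icc.1 h0).1, (Nat.le_floor_iff (by positivity)).1 (mem_Icc.1 h0).2,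
    by exact_mod_cast (show (a n₀ : ℝ) < 1 by linarith), fun n hn => ?_⟩
  by_cases h : n ≤ ⌊Real.exp (Real.exp 40)⌋₊
  · exact hmin n (mem_Icc.2 ⟨hn, h⟩)
  · have h3 : Real.exp (Real.exp 40) < n := (Nat.floor_lt (by positivity)).1 (not_le.1 h)
    have h4 : 16 ≤ n := by exact_mod_cast (show (16 : ℝ) ≤ n by linarith)
    have h5 : Real.exp 40 ≤ Real.log n := (Real.le_log_iff_exp_le (by linarith)).2 h3.le
    obtain ⟨w, hw, hp, hA⟩ := (ha n hn).2.2.2
    obtain ⟨A, hA'⟩ := TightRate.result n h4 (n ^ n) (fun i g => (w i g : ℝ))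
      fun i g => by exact_mod_cast hw i g
    obtain ⟨i, hi⟩ := hA A
    have h6 : 1 - 2000000 * Real.log (Real.log n) ^ 2 / Real.log n ≤ a n :=
      le_of_mul_le_mul_right (le_trans (hA' i) hi) (hp i)
    have h7 := num h5
    exact_mod_cast (show (a n₀ : ℝ) ≤ a n by linarith)

theorem result : ∃ (q : ℚ) (n₀ : ℕ), 0 < q ∧ q < 1 ∧ 2 ≤ n₀ ∧
    (n₀ : ℝ) ≤ Real.exp (Real.exp 40) ∧ (∀ n, 2 ≤ n → Guarantee n q) ∧ Tight n₀ q := by
  obtain ⟨a, ha, n₀, h1, h2, h3, h4⟩ := all_ratios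
  refine ⟨a n₀, n₀, (ha n₀ h1).1, h3, h1, h2, fun n hn m v hv => ?_, (ha n₀ h1).2.2.2⟩
  obtain ⟨A, hA⟩ := (ha n hn).2.2.1 m v hv
  refine ⟨A, fun i => le_trans (mul_le_mul_of_nonneg_right ?_ ?_) (hA i)⟩
  · exact_mod_cast h4 n hn
  · exact le_mms (by omega) A fun j => sum_nonneg fun g _ => hv i g

end Pool.Agent.Results.MP_5049a2_lc.RationalMin
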